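import Mathlib
import Pool.Agent.H.MP_95c08c_lc.Final

/-!
K-trivial sets and `Δ⁰₂` almost complete sets: there is a `Δ⁰₂` almost complete set which
computes no noncomputable K-trivial set.
-/

namespace Pool.Agent.Results.MP_95c08c_lc.AvoidKTrivials

open Pool.Agent.H.MP_95c08c_lc

/-- It is not true that every K-trivial set is computable from every `Δ⁰₂` almost complete set.
In fact, for every uniformly `Δ⁰₂` sequence `Z 0, Z 1, ...` of sets there is one `Δ⁰₂` almost
complete set `B` such that every K-trivial set that is computable from `B` is computable, and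
every `Z i` that is computable from `B` is computable. -/
theorem result :
    (¬ ∀ A B : ℕ → Bool, KTrivial A → IsDeltaTwo B → AlmostComplete B →
      TuringReducible (orc A) (orc B)) ∧
    ∀ Z : ℕ → ℕ → Bool, IsDeltaTwo (fun n => Z n.unpair.1 n.unpair.2) →
      ∃ B : ℕ → Bool, IsDeltaTwo B ∧ AlmostComplete B ∧
        (∀ A : ℕ → Bool, KTrivial A → TuringReducible (orc A) (orc B) → Computable A) ∧
        (∀ i : ℕ, TuringReducible (orc (Z i)) (orc B) → Computable (Z i)) := by
  refine ⟨fun h => ?_, fun Z hZ => avoid_kTrivial Z hZ⟩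
  obtain ⟨A, B, hA, hB1, hB2, hAB⟩ := not_below
  exact hAB (h A B hA hB1 hB2)

end Pool.Agent.Results.MP_95c08c_lc.AvoidKTrivials
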